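import Pool.Agent.H73.Amalg

namespace Pool.Agent.Results.MP_d8fac8_al.CardinalSum

universe u

theorem result : ¬ Pool.Agent.H73.AmalgDefs.IsAmalgBase.{u} (ℤ × ℤ) :=
  Pool.Agent.H73.Amalg.not_base1

end Pool.Agent.Results.MP_d8fac8_al.CardinalSum
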